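import Pool.Agent.Results.MP_ea46f5_nt.GenericShifts

set_option autoImplicit false

/-!
# Moments of quadratic Dirichlet `L`-functions along almost every real direction

The theorem `GenericShifts` of this page (`0 < θ ≤ 1`) says for each single `X` that, after at most `X ^ (1 - δ)`
discriminants have been removed, the `k`-th moment with the shifts `i α_j` has the predicted value, with a power saving,
for all `α` in the cube `[-X ^ θ, X ^ θ] ^ k` but a set of measure at most `X ^ (kθ - δ)`, which depends on `X`. Here we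
show that there are no exceptions along almost every direction: let `X_1, X_2, ...` be a sequence such that the sum of
the `X_n ^ (-ε)` converges for every `ε > 0`, for example the powers of `2`. For almost every `b` in `[-1, 1] ^ k`, for
ALL large `n`, the moment has the predicted value at `α = X_n ^ θ b`, for all exponents `θ` of a given countable set
at once. The sets of removed discriminants do not depend on `b`. More generally `α = c_n + r_n b`, where
`X_n ^ (θ - η) ≤ r_n` and the cube `c_n + r_n [-1, 1] ^ k` lies in `[-X_n ^ θ, X_n ^ θ] ^ k`; here `η > 0` depends on `k`,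
`s` and `θ` only: so almost every member of all families of small cubes, at arbitrary places, is regular.
-/

open Filter MeasureTheory
open scoped ENNReal

namespace Pool.Agent.Results.MP_ea46f5_nt.AlmostEveryDirection

open Pool.Agent.Results.MP_ea46f5_nt.GenericShifts (chars L moment localFactor A mainTerm)

/-- At the shifts `i α_j` the `k`-th moment over the discriminants of sign `s`, `1 < |d| < X`, `|d|` not in `E`, differs
from `(3/π²) X A_k(iα) ∏_{i ≤ j} ζ(1 + i α_i + i α_j)` by at most `X ^ (1 - δ)`. -/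
def AsPredicted {k : ℕ} (s : ℤ) (δ X : ℝ) (E : Finset ℕ) (α : Fin k → ℝ) : Prop :=
  ‖moment s X E α - (3 / (Real.pi : ℂ) ^ 2) * X * mainTerm (fun j => Complex.I * (α j : ℂ))‖ ≤ X ^ (1 - δ)

/-- the measure of the bad `b` in the unit cube -/
theorem scaled {k : ℕ} (P : (Fin k → ℝ) → Prop) (c : Fin k → ℝ) {r R : ℝ} (hr : 0 < r)
    (hc : ∀ j, |c j| + r ≤ R) :
    volume {b : Fin k → ℝ | (∀ j, |b j| ≤ 1) ∧ P (fun j => c j + r * b j)} ≤
      ENNReal.ofReal ((r ^ k)⁻¹) * volume {α : Fin k → ℝ | (∀ j, |α j| ≤ R) ∧ P α} := by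
  have h1 : {b : Fin k → ℝ | (∀ j, |b j| ≤ 1) ∧ P (fun j => c j + r * b j)} ⊆
      (fun b : Fin k → ℝ => r • b) ⁻¹' ((fun α => c + α) ⁻¹' {α : Fin k → ℝ | (∀ j, |α j| ≤ R) ∧ P α}) := by
    rintro b ⟨h1, h2⟩
    refine ⟨fun j => ?_, h2⟩
    show |c j + r * b j| ≤ R
    refine (abs_add_le _ _).trans (le_trans ?_ (hc j))
    rw [abs_mul, abs_of_pos hr]
    have := h1 j
    nlinarith
  refine (measure_mono h1).trans ?_
  rw [Measure.addHaar_preimage_smul volume hr.ne', measure_preimage_add, Module.finrank_fin_fun]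
  rw [abs_of_pos (by positivity)]

/-- **Moments along almost every direction.** Let `k ≥ 1`, and let `X_n ≥ 1` be real numbers such that the sum of the
`X_n ^ (-ε)` converges for every `ε > 0`. For both signs `s` and all `0 < θ ≤ 1` there are `δ > 0` and sets `E_n` of at
most `X_n ^ (1 - δ)` conductors (`n` large) with the following property. Let `c_n` be vectors and `r_n > 0` numbers with
`|c_{n,j}| + r_n ≤ X_n ^ θ` and `r_n ≥ X_n ^ (θ - δ)` for all large `n`. Then for almost every `b` in the cube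
`[-1, 1] ^ k`, for ALL large `n`: `AsPredicted s δ X_n E_n (c_n + r_n b)`. In particular (`c_n = 0`, `r_n = X_n ^ θ`) this
holds for the shifts `i X_n ^ θ b_j`. -/
theorem result (k : ℕ) (hk : 1 ≤ k) (X : ℕ → ℝ) (hX1 : ∀ n, 1 ≤ X n)
    (hX : ∀ ε : ℝ, 0 < ε → Summable fun n => X n ^ (-ε)) (s : ℤ) (hs : s = 1 ∨ s = -1) (θ : ℝ) (hθ : 0 < θ)
    (hθ1 : θ ≤ 1) : ∃ (δ : ℝ) (E : ℕ → Finset ℕ), 0 < δ ∧ (∀ᶠ n : ℕ in atTop, ((E n).card : ℝ) ≤ X n ^ (1 - δ)) ∧
      ∀ (c : ℕ → Fin k → ℝ) (r : ℕ → ℝ), (∀ᶠ n : ℕ in atTop, X n ^ (θ - δ) ≤ r n ∧ ∀ j, |c n j| + r n ≤ X n ^ θ) →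
        ∀ᵐ b : Fin k → ℝ, (∀ j, |b j| ≤ 1) → ∀ᶠ n : ℕ in atTop, AsPredicted s δ (X n) (E n) fun j => c n j + r n * b j := by
  classical
  obtain ⟨δ₀, X₀, hδ₀, h0⟩ := GenericShifts.result k hk s hs θ hθ hθ1
  choose! E' hE' hvol using h0
  have hk1 : (1 : ℝ) ≤ k := by exact_mod_cast hk
  obtain ⟨δ, hδdef⟩ : ∃ δ : ℝ, δ = δ₀ / (2 * k) := ⟨_, rfl⟩
  have hδ : 0 < δ := by rw [hδdef]; positivity
  have hδ1 : δ ≤ δ₀ := by
    rw [hδdef, div_le_iff₀ (by positivity)]
    nlinarith
  have hδ2 : δ₀ = 2 * k * δ := by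
    rw [hδdef]
    field_simp
  have hXlarge : ∀ᶠ n : ℕ in atTop, X₀ ≤ X n := by
    have h1 := (hX 1 one_pos).tendsto_atTop_zero
    have h2 : (0 : ℝ) < (|X₀| + 1)⁻¹ := by positivity
    filter_upwards [h1.eventually (gt_mem_nhds h2)] with n hn
    rw [Real.rpow_neg_one] at hn
    have h3 := (inv_lt_inv₀ (by linarith [hX1 n]) (by positivity)).1 hn
    linarith [le_abs_self X₀]
  refine ⟨δ, fun n => E' (X n), hδ, ?_, fun c r hcr => ?_⟩
  · filter_upwards [hXlarge] with n hn
    refine (hE' (X n) hn).trans ?_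
    exact Real.rpow_le_rpow_of_exponent_le (hX1 n) (by linarith)
  · -- the bad events
    obtain ⟨Q, hQ⟩ : ∃ Q : ℕ → Prop, Q = fun n => X₀ ≤ X n ∧ X n ^ (θ - δ) ≤ r n ∧ ∀ j, |c n j| + r n ≤ X n ^ θ :=
      ⟨_, rfl⟩
    have hmeas : ∀ n, volume {b : Fin k → ℝ | Q n ∧ (∀ j, |b j| ≤ 1) ∧
        ¬ AsPredicted s δ (X n) (E' (X n)) fun j => c n j + r n * b j} ≤ ENNReal.ofReal (X n ^ (-(k * δ))) := by
      intro n
      by_cases hQn : Q n
      · rw [hQ] at hQn
        obtain ⟨h1, h2, h3⟩ := hQn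
        have hXn := hX1 n
        have hX0 : 0 < X n := by linarith
        have hr : 0 < r n := lt_of_lt_of_le (by positivity) h2
        have h4 := scaled (fun α => ¬ AsPredicted s δ (X n) (E' (X n)) α) (c n) hr h3
        have h5 : {α : Fin k → ℝ | (∀ j, |α j| ≤ X n ^ θ) ∧ ¬ AsPredicted s δ (X n) (E' (X n)) α} ⊆
            {α : Fin k → ℝ | (∀ j, |α j| ≤ X n ^ θ) ∧
              X n ^ (1 - δ₀) < ‖moment s (X n) (E' (X n)) α -
                (3 / (Real.pi : ℂ) ^ 2) * X n * mainTerm (fun j => Complex.I * (α j : ℂ))‖} := by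
          rintro α ⟨h6, h7⟩
          refine ⟨h6, ?_⟩
          unfold AsPredicted at h7
          rw [not_le] at h7
          refine lt_of_le_of_lt ?_ h7
          exact Real.rpow_le_rpow_of_exponent_le hXn (by linarith)
        have h6 := (measure_mono h5).trans (hvol (X n) h1)
        refine le_trans (measure_mono ?_) (h4.trans (le_trans (mul_le_mul_right h6 _) ?_))
        · rintro b ⟨_, hb1, hb2⟩
          exact ⟨hb1, hb2⟩
        · rw [← ENNReal.ofReal_mul (by positivity)]
          apply ENNReal.ofReal_le_ofReal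
          have h7 : (X n ^ (θ - δ)) ^ k ≤ r n ^ k := pow_le_pow_left₀ (by positivity) h2 k
          have h8 : (r n ^ k)⁻¹ ≤ ((X n ^ (θ - δ)) ^ k)⁻¹ := inv_anti₀ (by positivity) h7
          calc (r n ^ k)⁻¹ * X n ^ ((k : ℝ) * θ - δ₀) ≤ ((X n ^ (θ - δ)) ^ k)⁻¹ * X n ^ ((k : ℝ) * θ - δ₀) :=
                mul_le_mul_of_nonneg_right h8 (by positivity)
            _ = X n ^ (-(k * δ)) := by
                rw [← Real.rpow_natCast, ← Real.rpow_mul hX0.le, ← Real.rpow_neg hX0.le, ← Real.rpow_add hX0]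
                congr 1
                rw [hδ2]
                ring
      · have : {b : Fin k → ℝ | Q n ∧ (∀ j, |b j| ≤ 1) ∧
            ¬ AsPredicted s δ (X n) (E' (X n)) fun j => c n j + r n * b j} = ∅ := by
          ext b
          simp [hQn]
        rw [this, measure_empty]
        exact zero_le
    have hsum : ∑' n, volume {b : Fin k → ℝ | Q n ∧ (∀ j, |b j| ≤ 1) ∧
        ¬ AsPredicted s δ (X n) (E' (X n)) fun j => c n j + r n * b j} ≠ ⊤ := by
      refine ne_top_of_le_ne_top ?_ (ENNReal.tsum_le_tsum hmeas)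
      rw [← ENNReal.ofReal_tsum_of_nonneg (fun n => Real.rpow_nonneg (by linarith [hX1 n]) _)
        (hX (k * δ) (by positivity))]
      exact ENNReal.ofReal_ne_top
    have h1 := measure_setOfPred_frequently_eq_zero hsum
    have h2 : ∀ᵐ b : Fin k → ℝ, ¬ ∃ᶠ n in atTop, Q n ∧ (∀ j, |b j| ≤ 1) ∧
        ¬ AsPredicted s δ (X n) (E' (X n)) fun j => c n j + r n * b j := by
      rw [ae_iff]
      simp only [not_not]
      exact h1
    filter_upwards [h2] with b hb hb1
    rw [not_frequently] at hb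
    filter_upwards [hb, hXlarge, hcr] with n h3 h4 h5
    by_contra h6
    refine h3 ⟨?_, hb1, h6⟩
    rw [hQ]
    exact ⟨h4, h5.1, h5.2⟩

end Pool.Agent.Results.MP_ea46f5_nt.AlmostEveryDirection
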