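import Pool.Agent.N879.QM.AllB

set_option autoImplicit false

/-!
# Moments of quadratic Dirichlet `L`-functions of every order, for almost all small shifts

Let `s = ±1` and let `d` run over the fundamental discriminants of sign `s` with `1 < |d| < X`, that is, let `χ = χ_d`
run over the real primitive Dirichlet characters of conductor `q = |d|`, `2 ≤ q < X`, with `χ(-1) = s`. We show,
unconditionally, for every `k ≥ 1` and every `θ > 0`, however small: there is `δ > 0` such that, after at most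
`X^(1 - δ)` discriminants have been removed (a set that depends on `s, k, θ, X` only),

`∑_d ∏_j L(1/2 + i α_j, χ_d) = (3/π²) X A_k(iα) ∏_{i ≤ j} ζ(1 + i α_i + i α_j) + O(X^(1 - δ))`

for all shift vectors `α` in the cube `[-X^θ, X^θ]^k` outside a set of measure at most `X^(kθ - δ)`. The main term is
that of Conrey, Farmer, Keating, Rubinstein and Snaith (the terms of their recipe with swapped shifts are smaller than
the error term for almost all shifts of this size). For `θ > 1` no discriminant has to be removed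
(`MP_fed7ff_nt`, `AlmostAllShifts`); the theorem below is stated for `0 < θ ≤ 1`.

The proof: as an operator between the family and the interval of the shifts, `L` minus a short Dirichlet polynomial is
small (Heath-Brown's large sieve for real characters for the short and the middle pieces, sums over short blocks and the
Polya-Vinogradov inequality for the long ones), the discriminants with a large local second moment are few, and for the
others the factors are replaced by short Dirichlet polynomials one at a time.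
-/

namespace Pool.Agent.Results.MP_ea46f5_nt.GenericShifts

open Complex MeasureTheory

noncomputable section

/-- The characters `χ_d` of the fundamental discriminants `d` of sign `s` with `|d| = q` (`q ≥ 2`): the real primitive
characters modulo `q` with `χ(-1) = s`. -/
def chars (s : ℤ) (q : ℕ) : Set (DirichletCharacter ℂ q) :=
  {χ | χ.IsPrimitive ∧ χ ^ 2 = 1 ∧ χ (-1) = (s : ℂ)}

/-- The `L`-function of a Dirichlet character modulo `q ≥ 1` (the analytic continuation of `∑ χ(n) n^(-z)`). -/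
def L {q : ℕ} (χ : DirichletCharacter ℂ q) (z : ℂ) : ℂ :=
  if h : q ≠ 0 then haveI : NeZero q := ⟨h⟩; DirichletCharacter.LFunction χ z else 0

/-- The shifted moment: the sum of `∏_j L(1/2 + i α_j, χ_d)` over the `d` of sign `s` with `2 ≤ |d| < X` and `|d|` not
in `E`. -/
def moment {k : ℕ} (s : ℤ) (X : ℝ) (E : Finset ℕ) (α : Fin k → ℝ) : ℂ :=
  ∑ q ∈ Finset.Ico 2 ⌈X⌉₊ \ E, ∑ᶠ χ ∈ chars s q, ∏ j, L χ (1 / 2 + I * (α j : ℂ))

/-- The local factor of `A_k(z_1, …, z_k)` at the prime `p`. -/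
def localFactor {k : ℕ} (z : Fin k → ℂ) (p : ℕ) : ℂ :=
  (∏ i, ∏ j ∈ Finset.Ici i, (1 - (p : ℂ) ^ (-(1 + z i + z j)))) *
    (1 / 2 * ((∏ j, (1 - (p : ℂ) ^ (-(1 / 2 + z j)))⁻¹) + ∏ j, (1 + (p : ℂ) ^ (-(1 / 2 + z j)))⁻¹) + 1 / (p : ℂ)) *
    (1 + 1 / (p : ℂ))⁻¹

/-- The Euler product `A_k(z_1, …, z_k)`. -/
def A {k : ℕ} (z : Fin k → ℂ) : ℂ := ∏' p : Nat.Primes, localFactor z p

/-- `A_k(z) ∏_{i ≤ j} ζ(1 + z_i + z_j)`. -/
def mainTerm {k : ℕ} (z : Fin k → ℂ) : ℂ := A z * ∏ i, ∏ j ∈ Finset.Ici i, riemannZeta (1 + z i + z j)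

lemma mainTerm_eq {k : ℕ} (z : Fin k → ℂ) : mainTerm z = Pool.Agent.N879.QM.MT z := by
  unfold mainTerm Pool.Agent.N879.QM.MT A Pool.Agent.N879.QM.Ak
  rw [← Pool.Agent.N879.QM.prod_Pr (fun i j => riemannZeta (1 + z i + z j))]
  congr 1
  refine tprod_congr fun p => ?_
  unfold localFactor Pool.Agent.N879.QM.loc
  rw [← Pool.Agent.N879.QM.prod_Pr (fun i j => 1 - ((p : ℕ) : ℂ) ^ (-(1 + z i + z j)))]

lemma moment_eq {k : ℕ} (s : ℤ) (X : ℝ) (E : Finset ℕ) (α : Fin k → ℝ) :
    moment s X E α = ∑ q ∈ Pool.Agent.N879.QM.Q s X \ E, ∏ j, Pool.Agent.N879.QM.LL s q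
      (Pool.Agent.N879.QM.pt (α j)) := by
  classical
  have h1 : Pool.Agent.N879.QM.Q s X \ E =
      (Finset.Ico 2 ⌈X⌉₊ \ E).filter (Pool.Agent.N879.QM.Is s) := by
    ext q
    unfold Pool.Agent.N879.QM.Q
    simp only [Finset.mem_sdiff, Finset.mem_filter]
    tauto
  rw [h1, Finset.sum_filter]
  refine Finset.sum_congr rfl fun q hq => ?_
  have hq2 : 2 ≤ q := (Finset.mem_Ico.1 (Finset.mem_sdiff.1 hq).1).1
  split_ifs with h
  · have h2 : chars s q = {Pool.Agent.N879.QM.ch s q} :=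
      Pool.Agent.N879.QM.Fq_eq Pool.Agent.N879.QM.t_UNI h
    rw [h2, finsum_mem_singleton]
    rfl
  · have h2 : chars s q = ∅ := Pool.Agent.N879.QM.Fq_empty hq2 h
    rw [h2, finsum_mem_empty]

/-- For every `k ≥ 1`, every sign `s` and every `0 < θ ≤ 1` there are `δ > 0` and `X₀` such that for all `X ≥ X₀` there
is a set `E` of at most `X^(1 - δ)` conductors such that the shift vectors `α` with `|α_j| ≤ X^θ` and
`|∑_d ∏_j L(1/2 + i α_j, χ_d) - (3/π²) X A_k(iα) ∏_{i ≤ j} ζ(1 + i α_i + i α_j)| > X^(1 - δ)`, the sum over the `d` of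
sign `s` with `2 ≤ |d| < X` and `|d|` not in `E`, form a set of measure at most `X^(kθ - δ)`. -/
theorem result (k : ℕ) (hk : 1 ≤ k) (s : ℤ) (hs : s = 1 ∨ s = -1) (θ : ℝ) (hθ : 0 < θ) (hθ1 : θ ≤ 1) :
    ∃ δ X₀ : ℝ, 0 < δ ∧ ∀ X : ℝ, X₀ ≤ X → ∃ E : Finset ℕ, (E.card : ℝ) ≤ X ^ (1 - δ) ∧
      volume {α : Fin k → ℝ | (∀ j, |α j| ≤ X ^ θ) ∧
        X ^ (1 - δ) < ‖moment s X E α - (3 / (Real.pi : ℂ) ^ 2) * X * mainTerm (fun j => I * (α j : ℂ))‖} ≤
      ENNReal.ofReal (X ^ (k * θ - δ)) := by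
  obtain ⟨δ, X₀, hδ, h⟩ := Pool.Agent.N879.QM.all_mainB k s θ hk hs hθ hθ1
  refine ⟨δ, X₀, hδ, fun X hX => ?_⟩
  obtain ⟨E, -, hE, h1⟩ := h X hX
  refine ⟨E, hE, ?_⟩
  rw [← Pool.Agent.N879.QM.vol_mS] at h1
  refine le_trans (le_of_eq ?_) h1
  congr 1
  ext α
  have e2 : (3 / (Real.pi : ℂ) ^ 2) * X = ((Pool.Agent.N879.QM.c0 * X : ℝ) : ℂ) := by
    unfold Pool.Agent.N879.QM.c0
    push_cast
    ring
  simp only [Set.mem_setOf_eq, moment_eq, e2, mainTerm_eq]
  rfl

end

end Pool.Agent.Results.MP_ea46f5_nt.GenericShifts
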