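import Mathlib
import Pool.Agent.N799.GL.Main

/-!
# A Speiser type theorem for the Grand Lindelöf Hypothesis, uniform in families of `GL(m)` L-functions

Let `π` run through a family of cuspidal representations of `GL(m)`, normalised as in the problem, let
`X = (1 + |t|) C_π`, and let `p` be a non-zero polynomial with complex coefficients.  Consider the zeros
(with multiplicities) of `P(s) = p(d/ds) L(s, π)`, for example of a derivative of `L(s, π)`, to the left of the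
critical line.

* (local) If `P` has at most `η log X` zeros with `-B ≤ Re s ≤ 1/2 - η`, `|Im s - t| ≤ A`, then
  `|L(1/2 + it, π)| ≤ X^ε`.  Conversely, if `|L(1/2 + iy, π)| ≤ X^η` for `|y - t| ≤ A`, then `P` has at most
  `ε log X` zeros with `-B ≤ Re s ≤ 1/2 - ε`, `|Im s - t| ≤ 1`.
* (comparison) The left zeros of the functions `P` belonging to different polynomials `p` are scarce near the
  same heights.
* (criterion) The Grand Lindelöf Hypothesis for the family is equivalent to: for all `δ, ε > 0`, for `X` large,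
  `P` has at most `ε log X` zeros with `-B ≤ Re s ≤ 1/2 - δ`, `T ≤ Im s ≤ T + 1`.

All constants are uniform in `π` and `t`; here `B > κ - 1` is arbitrary and `κ` is such that the L-functions are
bounded above and away from zero in `Re s ≥ κ`, uniformly in the family.  (Zeros far to the left are infinitely
many: they are close to the trivial zeros.)

The theorem uses only classical facts: the functional equation, entire of finite order, `Re mu_j ≤ 1/2 - δ` for
some `δ > 0` (Luo, Rudnick and Sarnak), `∑ Im mu_j = 0` (the normalisation of the problem), Molteni's bound, and the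
bounds in `Re s ≥ κ` (any `κ > 3/2` by Jacquet and Shalika's bound `|α_j(p)| < p^(1/2)`).  For primitive Dirichlet
characters of modulus `q > 1` all of them are proved and the result holds with `X = q (1 + |t|)` and every `B > 0`.
-/

set_option autoImplicit false

open Set

namespace Pool.Agent.Results.MP_ea46f5_nt.SpeiserForFamilies

/-- The data of a standard L-function of `GL(m)`: the conductor `N`, the archimedean parameters `mu j` (the
factor at infinity is `∏ j, Γ_ℝ (s - mu j)`) and the L-function `f` (continued to the complex plane). -/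
structure Datum (m : ℕ) where
  N : ℕ
  mu : Fin m → ℂ
  f : ℂ → ℂ

/-- The analytic conductor `C = N ∏ j, (1 + |mu j|)`. -/
noncomputable def Datum.C {m : ℕ} (D : Datum m) : ℝ := D.N * ∏ j, (1 + ‖D.mu j‖)

/-- The classical properties: `N ≥ 1`, `Re (mu j) ≤ 1/2 - δ`, `∑ j, Im (mu j) = 0`, `f` is entire, of finite
order in the strip `-1/4 ≤ Re s ≤ 5/4`, and satisfies the functional equation
`Λ(s) = root N^(1/2-s) conj (Λ(1 - conj s))`, `Λ(s) = f(s) ∏ j, Γ_ℝ (s - mu j)`, with `|root| = 1` (divided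
by the gamma factors of both sides). -/
structure Datum.Ok {m : ℕ} (D : Datum m) (δ : ℝ) : Prop where
  N_pos : 0 < D.N
  gap : ∀ j, (D.mu j).re ≤ 1 / 2 - δ
  im_sum : ∑ j, (D.mu j).im = 0
  entire : Differentiable ℂ D.f
  order : ∃ A : ℝ, ∀ s : ℂ, -1 / 4 ≤ s.re → s.re ≤ 5 / 4 →
    ‖D.f s‖ ≤ Real.exp (A * (1 + |s.im|) ^ A)
  fe : ∃ root : ℂ, ‖root‖ = 1 ∧ ∀ s : ℂ,
    D.f s * ∏ j, (Complex.Gammaℝ (1 - s - (starRingEnd ℂ) (D.mu j)))⁻¹ =
      root * (D.N : ℂ) ^ (1 / 2 - s) * (starRingEnd ℂ) (D.f (1 - (starRingEnd ℂ) s)) *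
        ∏ j, (Complex.Gammaℝ (s - D.mu j))⁻¹

/-- Molteni's bound to the right of the critical strip, uniform in the family. -/
def Molteni {ι : Type} {m : ℕ} (D : ι → Datum m) : Prop := ∀ ε : ℝ, 0 < ε → ∃ B : ℝ, ∀ (i : ι) (s : ℂ),
  1 + ε ≤ s.re → ‖(D i).f s‖ ≤ B * (D i).C ^ ε

/-- The L-functions are bounded above and away from zero in `Re s ≥ κ`, uniformly in the family. -/
def Far {ι : Type} {m : ℕ} (D : ι → Datum m) (κ : ℝ) : Prop := ∃ b : ℝ, 0 < b ∧ ∀ (i : ι) (s : ℂ),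
  κ ≤ s.re → 1 / b ≤ ‖(D i).f s‖ ∧ ‖(D i).f s‖ ≤ b

/-- `p(d/ds) L (s)`: if `p = ∑ a_j X^j` then this is `∑ a_j L^(j)(s)`. -/
noncomputable def P (p : Polynomial ℂ) (L : ℂ → ℂ) (s : ℂ) : ℂ :=
  p.sum fun j a => a * iteratedDeriv j L s

/-- The zeros of `g` in `U`, counted with multiplicity, are at most `B` in number. -/
def FewZeros (g : ℂ → ℂ) (U : Set ℂ) (B : ℝ) : Prop :=
  ∀ S : Finset ℂ, (∀ z ∈ S, z ∈ U ∧ g z = 0) → ∑ z ∈ S, (analyticOrderNatAt g z : ℝ) ≤ B

variable {ι : Type}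

/-- The (Grand) Lindelöf Hypothesis for the family: `L(1/2 + it) = O(X^ε)` for every `ε > 0`. -/
def Lindelof (L : ι → ℂ → ℂ) (X : ι → ℝ → ℝ) : Prop :=
  ∀ ε : ℝ, 0 < ε → ∃ C : ℝ, ∀ (i : ι) (t : ℝ), ‖L i (1 / 2 + t * Complex.I)‖ ≤ C * X i t ^ ε

/-- The conclusion for a family. -/
structure Conclusion (L : ι → ℂ → ℂ) (X : ι → ℝ → ℝ) (κ : ℝ) : Prop where
  /-- few left zeros imply small values, locally -/
  few_small : ∀ (p : Polynomial ℂ), p ≠ 0 → ∀ B ε : ℝ, κ - 1 < B → 0 < ε → ∃ η A X₀ : ℝ, 0 < η ∧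
    ∀ (i : ι) (t : ℝ), X₀ ≤ X i t →
      FewZeros (P p (L i)) {s | -B ≤ s.re ∧ s.re ≤ 1 / 2 - η ∧ |s.im - t| ≤ A}
        (η * Real.log (X i t)) →
      ‖L i (1 / 2 + t * Complex.I)‖ ≤ X i t ^ ε
  /-- small values imply few left zeros, locally -/
  small_few : ∀ (p : Polynomial ℂ), p ≠ 0 → ∀ B ε : ℝ, 0 < ε → ∃ η A X₀ : ℝ, 0 < η ∧
    ∀ (i : ι) (t : ℝ), X₀ ≤ X i t →
      (∀ y : ℝ, |y - t| ≤ A → ‖L i (1 / 2 + y * Complex.I)‖ ≤ X i t ^ η) →
      FewZeros (P p (L i)) {s | -B ≤ s.re ∧ s.re ≤ 1 / 2 - ε ∧ |s.im - t| ≤ 1}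
        (ε * Real.log (X i t))
  /-- comparison of the left zeros for two polynomials, locally -/
  compare : ∀ (p q : Polynomial ℂ), p ≠ 0 → q ≠ 0 → ∀ B B' ε : ℝ, κ - 1 < B → 0 < ε →
    ∃ η A X₀ : ℝ, 0 < η ∧ ∀ (i : ι) (t : ℝ), X₀ ≤ X i t →
      FewZeros (P p (L i)) {s | -B ≤ s.re ∧ s.re ≤ 1 / 2 - η ∧ |s.im - t| ≤ A}
        (η * Real.log (X i t)) →
      FewZeros (P q (L i)) {s | -B' ≤ s.re ∧ s.re ≤ 1 / 2 - ε ∧ |s.im - t| ≤ 1}
        (ε * Real.log (X i t))
  /-- the criterion for the Grand Lindelöf Hypothesis -/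
  criterion : ∀ (p : Polynomial ℂ), p ≠ 0 → ∀ B : ℝ, κ - 1 < B →
    (Lindelof L X ↔ ∀ δ : ℝ, 0 < δ → ∀ ε : ℝ, 0 < ε → ∃ X₀ : ℝ, ∀ (i : ι) (T : ℝ), X₀ ≤ X i T →
      FewZeros (P p (L i)) {s | -B ≤ s.re ∧ s.re ≤ 1 / 2 - δ ∧ T ≤ s.im ∧ s.im ≤ T + 1}
        (ε * Real.log (X i T)))

section proofs

open Pool.Agent.W188.GLR Pool.Agent.N799.GL

theorem conclusion_of {m : ℕ} {N : ι → ℕ} {mu : ι → Fin m → ℂ} {f : ι → ℂ → ℂ} {X : ι → ℝ → ℝ}
    {δ κ : ℝ} (H : GLData m N mu f X δ) (hκ : 1 ≤ κ) (hfar : ∀ κ' : ℝ, κ < κ' →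
      ∃ b : ℝ, 0 < b ∧ ∀ (i : ι) (s : ℂ), κ' ≤ s.re → 1 / b ≤ ‖f i s‖ ∧ ‖f i s‖ ≤ b) :
    Conclusion f X κ where
  few_small := by
    intro p hp B ε hB hε
    obtain ⟨b, hb, h⟩ := hfar ((κ + (B + 1)) / 2) (by linarith)
    exact few_small' H (by linarith) hb h p hp B (by linarith) ε hε
  small_few := by
    intro p hp B ε hε
    obtain ⟨b, hb, h⟩ := hfar (κ + 1) (by linarith)
    exact small_few' H (by linarith) hb h p hp B ε hε
  compare := by
    intro p q hp hq B B' ε hB hε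
    obtain ⟨b, hb, h⟩ := hfar ((κ + (B + 1)) / 2) (by linarith)
    exact compare' H (by linarith) hb h p q hp hq B B' (by linarith) ε hε
  criterion := by
    intro p hp B hB
    obtain ⟨b, hb, h⟩ := hfar ((κ + (B + 1)) / 2) (by linarith)
    exact Lind_iff H (by linarith) hb h p hp B (by linarith)

end proofs

theorem result :
    (∀ (ι : Type) (m : ℕ) (δ κ : ℝ) (D : ι → Datum m), 1 ≤ m → 0 < δ → 1 ≤ κ → (∀ i, (D i).Ok δ) →
      Molteni D → Far D κ →
      Conclusion (fun i => (D i).f) (fun i t => (1 + |t|) * (D i).C) κ) ∧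
    (∀ (ι : Type) (q : ι → ℕ) [∀ i, NeZero (q i)] (χ : (i : ι) → DirichletCharacter ℂ (q i)),
      (∀ i, 1 < q i ∧ (χ i).IsPrimitive) →
      Conclusion (fun i => DirichletCharacter.LFunction (χ i)) (fun i t => (q i : ℝ) * (1 + |t|)) 1) :=
  ⟨fun _ _ _ _ _ hm hδ hκ hD hM hF => conclusion_of (Pool.Agent.W188.GLR.GLData.of_gl hm hδ
      (fun i => (hD i).N_pos) (fun i => (hD i).gap) (fun i => (hD i).im_sum)
      (fun i => (hD i).entire) (fun i => (hD i).order) (fun i => (hD i).fe) hM) hκ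
      (fun κ' hκ' => by
        obtain ⟨b, hb, h⟩ := hF
        exact ⟨b, hb, fun i s hs => h i s (hκ'.le.trans hs)⟩),
    fun ι q _ χ h => conclusion_of (Pool.Agent.W188.GLR.GLData.of_dir h) le_rfl
      (fun κ' hκ' => by
        obtain ⟨b, hb, h2⟩ := Pool.Agent.N799.GL.dir_far hκ'
        exact ⟨b, hb, fun i s hs => h2 (q i) (χ i) s hs⟩)⟩

end Pool.Agent.Results.MP_ea46f5_nt.SpeiserForFamilies
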