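import Pool.Agent.N666.TB.TwB
import Pool.Agent.N666.TM.Pow
import Pool.Agent.N666.TB.Ab

/-!
# Quadratic twists by thin sequences over a number field: the central partial Euler products

Let `K` be a number field and let `μ_v = (μ_{v,1}, …, μ_{v,n})`, `|μ_{v,j}| ≤ 1`, be given for every prime `v` of `K`: for
instance `n = 1`, `μ = 1` (the quadratic characters themselves), or the Satake parameters of a cuspidal representation for
which the conjecture of Ramanujan is known, or the normalised Frobenius eigenvalues of any elliptic curve over `K`.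
For `D ∈ 𝓞_K` let

`L(D; x) = ∏_{v | p ≤ x, p ≠ 2} ∏_j |1 - χ_D(v) μ_{v,j} / √Nv|⁻¹`,

`χ_D(v)` the quadratic symbol (`0` if `v | 2D`): the partial Euler product of `L(s, χ_D)`, or `L(s, π ⊗ χ_D)`, at the
central point `s = 1/2`. Let `D_m = ∑ ⌊P_i(m)⌋ ω_i`, `ω_i` an integral basis, `P_i` finite sums of real powers with different leading
exponents: a thin sequence of twists. Let `m` run through the integers, or the primes, of `(N, 2N]`.

A. For all but `C l^{-A} #` of the `m`, for ALL `x ≥ 16` with `x^k ≤ N`,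
`|log L(D_m; x) - c(x)| ≤ l (log log x)^{1/2} (1 + log log log x)^ε`, `c(x) = ∑_{v | p ≤ x} ∑_j Re μ_{v,j}² / (2 Nv)`.

B. If `∑_{v | p ≤ x} (∑_j Re μ_{v,j})² / Nv ~ V log log x` with `V > 0` (`V = 1` for cuspidal self-contragredient `π` by Rankin
and Selberg), then for every `x(N) = N^{o(1)}` which tends to infinity `(log L(D_m; x(N)) - c(x(N))) / √(V log log x(N))`
tends in law to the standard normal law.

C. In the time `log log x` the process `log L(D_m; x) - c(x)` tends to Brownian motion (joint laws at finitely many times,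
in the form of characteristic functions).

D. For `K = ℚ`, `n = 1`, `μ = 1`, the quadratic Dirichlet L-functions `L(1/2, χ_D)` of the problem, `c(x) ~ (1/2) log log x` and
`V = 1`: the products `L(D_m; x)`, `D_m = ⌊P(m)⌋`, have the log-normal law with mean `(1/2) log log x` and variance
`log log x`, in accordance with the exponents `k (k + 1) / 2 = k · (1/2) + k² / 2` of the conjecture.

Proof. The vectors `(⌊P_i(m)⌋)` are equidistributed modulo `q ≤ N^κ` with a power saving, by exponential sums over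
integers and primes (`Pool.Agent.Y961.JR` of the starting library), so the moments of the sums along the sequence are those
of independent variables; the symbols of the different places above one `p` are independent by the Chinese remainder
theorem.
-/

set_option autoImplicit false

open Filter Topology NumberField IsDedekindDomain ProbabilityTheory

namespace Pool.Agent.Results.MP_ea46f5_nt.ThinTwists

/-- `c` is the largest exponent of the generalised polynomial `∑ a_x t ^ x`; it is positive and not an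
integer and has a positive coefficient. -/
def Admissible (P : Finset ℝ) (a : ℝ → ℝ) (c : ℝ) : Prop :=
  c ∈ P ∧ (∀ x ∈ P, x ≤ c) ∧ 0 < c ∧ (∀ m : ℕ, c ≠ m) ∧ 0 < a c

/-- The integers in `(N, 2N]`. -/
def integers (N : ℕ) : Finset ℕ := Finset.Ioc N (2 * N)

/-- The primes in `(N, 2N]`. -/
def primes (N : ℕ) : Finset ℕ := (Finset.Ioc N (2 * N)).filter Nat.Prime

/-- The odd primes up to `x`. -/
def oddPrimes (x : ℕ) : Finset ℕ := (Finset.Icc 1 x).filter (fun p => p.Prime ∧ p ≠ 2)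

/-- The distribution function of the standard normal law. -/
noncomputable def normal (z : ℝ) : ℝ := (gaussianReal 0 1 (Set.Iic z)).toReal

section

variable {K : Type} [Field K] [NumberField K] {ι : Type} [Fintype ι] {n : ℕ}

/-- The twist `D_m`: the coordinates are the integer parts of the generalised polynomials `∑ a_x m ^ x`, `x ∈ P i`. -/
noncomputable def twist (ω : Module.Basis ι ℤ (𝓞 K)) (P : ι → Finset ℝ) (a : ι → ℝ → ℝ) (m : ℕ) : 𝓞 K :=
  ∑ i, ⌊∑ x ∈ P i, a i x * (m : ℝ) ^ x⌋ • ω i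

open Classical in
/-- The quadratic symbol of `D` at `v`: `0` if `v` divides `2` or `D`, `1` if `D` is a square modulo `v`, `-1` if not. -/
noncomputable def symbol (D : 𝓞 K) (v : HeightOneSpectrum (𝓞 K)) : ℝ :=
  if (2 : 𝓞 K) ∈ v.asIdeal ∨ D ∈ v.asIdeal then 0
  else if IsSquare (Ideal.Quotient.mk v.asIdeal D) then 1 else -1

/-- The absolute value of the Euler factor at `v` of the twist by `D`, at the central point `1/2`. -/
noncomputable def eulerFactor (μ : HeightOneSpectrum (𝓞 K) → Fin n → ℂ) (D : 𝓞 K) (v : HeightOneSpectrum (𝓞 K)) : ℝ :=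
  ∏ j, ‖1 - (symbol D v : ℂ) * μ v j / ((√(Ideal.absNorm v.asIdeal : ℝ) : ℝ) : ℂ)‖⁻¹

/-- The partial Euler product over all the places above the odd primes `p ≤ x`. -/
noncomputable def product (μ : HeightOneSpectrum (𝓞 K) → Fin n → ℂ) (D : 𝓞 K) (x : ℕ) : ℝ :=
  ∏ p ∈ oddPrimes x, ∏ᶠ v : {v : HeightOneSpectrum (𝓞 K) // (p : 𝓞 K) ∈ v.asIdeal}, eulerFactor μ D v.1

/-- The centre `c(x)`. -/
noncomputable def center (μ : HeightOneSpectrum (𝓞 K) → Fin n → ℂ) (x : ℕ) : ℝ :=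
  ∑ p ∈ oddPrimes x, ∑ᶠ v : {v : HeightOneSpectrum (𝓞 K) // (p : 𝓞 K) ∈ v.asIdeal},
    (∑ j, (μ v.1 j ^ 2).re) / (2 * Ideal.absNorm v.1.asIdeal)

/-- The variance: the sum of `(∑_j Re μ_{v,j})² / Nv`. -/
noncomputable def variance (μ : HeightOneSpectrum (𝓞 K) → Fin n → ℂ) (x : ℕ) : ℝ :=
  ∑ p ∈ oddPrimes x, ∑ᶠ v : {v : HeightOneSpectrum (𝓞 K) // (p : 𝓞 K) ∈ v.asIdeal},
    (∑ j, (μ v.1 j).re) ^ 2 / Ideal.absNorm v.1.asIdeal

/-- For some `x` with `16 ≤ x` and `x ^ k ≤ N` the logarithm of the product differs from the centre by more than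
`l (log log x)^{1/2} (1 + log log log x)^ε`. -/
def Exceptional (μ : HeightOneSpectrum (𝓞 K) → Fin n → ℂ) (D : 𝓞 K) (ε l : ℝ) (k N : ℕ) : Prop :=
  ∃ x : ℕ, 16 ≤ x ∧ x ^ k ≤ N ∧
    l * Real.log (Real.log x) ^ (1 / 2 : ℝ) * (1 + Real.log (Real.log (Real.log x))) ^ ε <
      |Real.log (product μ D x) - center μ x|

end

section

variable {K : Type} [Field K] [NumberField K] {ι : Type} [Fintype ι] [DecidableEq ι] {n : ℕ}

open Pool.Agent.H921R2.TatePole (nm two_le_nm nm_ne_zero below deg nm_eq below_le_nm fiber_card_le below_eq_of_mem)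

/-- the places above `p` -/
def eqv (p : Nat.Primes) : {v : HeightOneSpectrum (𝓞 K) // below v = p} ≃
    {v : HeightOneSpectrum (𝓞 K) // ((p : ℕ) : 𝓞 K) ∈ v.asIdeal} :=
  Equiv.subtypeEquivRight fun v => ⟨fun h => by
    have := (nm_eq v).2.2
    rwa [h] at this, below_eq_of_mem⟩

theorem finsum_eqv (p : Nat.Primes) (f : HeightOneSpectrum (𝓞 K) → ℝ) :
    ∑ᶠ v : {v : HeightOneSpectrum (𝓞 K) // ((p : ℕ) : 𝓞 K) ∈ v.asIdeal}, f v.1 =
      ∑ v : {v : HeightOneSpectrum (𝓞 K) // below v = p}, f v.1 := by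
  rw [← finsum_eq_sum_of_fintype]
  exact (finsum_comp_equiv (eqv p) (f := fun v => f v.1)).symm

theorem finprod_eqv (p : Nat.Primes) (f : HeightOneSpectrum (𝓞 K) → ℝ) :
    ∏ᶠ v : {v : HeightOneSpectrum (𝓞 K) // ((p : ℕ) : 𝓞 K) ∈ v.asIdeal}, f v.1 =
      ∏ v : {v : HeightOneSpectrum (𝓞 K) // below v = p}, f v.1 := by
  rw [← finprod_eq_prod_of_fintype]
  exact (finprod_comp_equiv (eqv p) (f := fun v => f v.1)).symm

theorem symbol_eq (D : 𝓞 K) (v : HeightOneSpectrum (𝓞 K)) :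
    symbol D v = Pool.Agent.N666.TB.chiR (Ideal.Quotient.mk v.asIdeal D) := by
  classical
  unfold symbol Pool.Agent.N666.TB.chiR
  have h9 : Ideal.Quotient.mk v.asIdeal (2 : 𝓞 K) = 2 := map_ofNat _ 2
  have h1 : ((2 : 𝓞 K) ∈ v.asIdeal ∨ D ∈ v.asIdeal) ↔
      ((2 : 𝓞 K ⧸ v.asIdeal) = 0 ∨ Ideal.Quotient.mk v.asIdeal D = 0) := by
    rw [← h9, Ideal.Quotient.eq_zero_iff_mem, Ideal.Quotient.eq_zero_iff_mem]
  by_cases h : (2 : 𝓞 K) ∈ v.asIdeal ∨ D ∈ v.asIdeal
  · rw [if_pos h, if_pos (h1.1 h)]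
  · rw [if_neg h, if_neg (fun h' => h (h1.2 h'))]
    by_cases hs : IsSquare (Ideal.Quotient.mk v.asIdeal D)
    · rw [if_pos hs]
      exact (if_pos hs).symm
    · rw [if_neg hs]
      exact (if_neg hs).symm

theorem factor_eq {μ : HeightOneSpectrum (𝓞 K) → Fin n → ℂ} (hμ : ∀ v j, ‖μ v j‖ ≤ 1) (D : 𝓞 K)
    (v : HeightOneSpectrum (𝓞 K)) : 0 < eulerFactor μ D v ∧
    Real.log (eulerFactor μ D v) = Pool.Agent.N666.TB.gT (μ v) (nm v)
      (Pool.Agent.N666.TB.chiR (Ideal.Quotient.mk v.asIdeal D)) := by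
  have hs : |symbol D v| ≤ 1 := by
    rw [symbol_eq]
    exact Pool.Agent.N666.TB.chiR_le _
  have hpos : ∀ j, 0 < ‖1 - (symbol D v : ℂ) * μ v j / ((√(Ideal.absNorm v.asIdeal : ℝ) : ℝ) : ℂ)‖ := by
    intro j
    obtain ⟨h1, h2⟩ := Pool.Agent.N666.TB.z_le (hμ v j) (two_le_nm v) hs
    rw [norm_pos_iff, sub_ne_zero]
    intro h
    have h3 : ‖(symbol D v : ℂ) * μ v j / ((√((nm v : ℕ) : ℝ) : ℝ) : ℂ)‖ = 1 := by
      have : (symbol D v : ℂ) * μ v j / ((√((nm v : ℕ) : ℝ) : ℝ) : ℂ) = 1 := h.symm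
      rw [this, norm_one]
    linarith
  unfold eulerFactor
  refine ⟨Finset.prod_pos fun j _ => inv_pos.2 (hpos j), ?_⟩
  rw [Real.log_prod (fun j _ => (inv_pos.2 (hpos j)).ne')]
  unfold Pool.Agent.N666.TB.gT
  rw [← Finset.sum_neg_distrib]
  refine Finset.sum_congr rfl fun j _ => ?_
  rw [Real.log_inv, symbol_eq]
  rfl

theorem odd_eq (x : ℕ) : oddPrimes x = Pool.Agent.N430.BP.OP x := by
  ext p
  unfold oddPrimes
  rw [Finset.mem_filter, Finset.mem_Icc, Pool.Agent.N430.BP.mem_OP]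
  constructor
  · rintro ⟨⟨_, h2⟩, h3⟩
    exact ⟨h2, h3⟩
  · rintro ⟨h2, h3⟩
    exact ⟨⟨h3.1.one_le, h2⟩, h3⟩

theorem DK_eq {μ : HeightOneSpectrum (𝓞 K) → Fin n → ℂ} (hμ : ∀ v j, ‖μ v j‖ ≤ 1) (ω : Module.Basis ι ℤ (𝓞 K))
    (w : ι → ℤ) (x : ℕ) : 0 < product μ (Pool.Agent.N666.TB.DD ω w) x ∧
    Pool.Agent.N666.TB.DK ω μ x w = Real.log (product μ (Pool.Agent.N666.TB.DD ω w) x) - center μ x := by
  set D := Pool.Agent.N666.TB.DD ω w with hD
  have e1 : ∀ p ∈ oddPrimes x, 0 < ∏ᶠ v : {v : HeightOneSpectrum (𝓞 K) // (p : 𝓞 K) ∈ v.asIdeal}, eulerFactor μ D v.1 ∧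
      Real.log (∏ᶠ v : {v : HeightOneSpectrum (𝓞 K) // (p : 𝓞 K) ∈ v.asIdeal}, eulerFactor μ D v.1) =
        Pool.Agent.N666.TB.gK ω μ p w := by
    intro p hp
    have hpp : p.Prime := (Finset.mem_filter.1 hp).2.1
    have e2 := finprod_eqv ⟨p, hpp⟩ (fun v => eulerFactor μ D v)
    have e3 : ∏ᶠ v : {v : HeightOneSpectrum (𝓞 K) // (p : 𝓞 K) ∈ v.asIdeal}, eulerFactor μ D v.1 =
        ∏ v : {v : HeightOneSpectrum (𝓞 K) // below v = ⟨p, hpp⟩}, eulerFactor μ D v.1 := e2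
    rw [e3]
    refine ⟨Finset.prod_pos fun v _ => (factor_eq hμ D v.1).1, ?_⟩
    rw [Real.log_prod (fun v _ => (factor_eq hμ D v.1).1.ne')]
    unfold Pool.Agent.N666.TB.gK
    rw [dif_pos hpp]
    exact Finset.sum_congr rfl fun v _ => (factor_eq hμ D v.1).2
  unfold product
  refine ⟨Finset.prod_pos fun p hp => (e1 p hp).1, ?_⟩
  rw [Real.log_prod (fun p hp => (e1 p hp).1.ne'), Finset.sum_congr rfl fun p hp => (e1 p hp).2]
  unfold Pool.Agent.N666.TB.DK center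
  rw [odd_eq]
  congr 1
  refine Finset.sum_congr rfl fun p hp => ?_
  have hpp : p.Prime := (Pool.Agent.N430.BP.mem_OP.1 hp).2.1
  have e2 := finsum_eqv (K := K) ⟨p, hpp⟩ (fun v => (∑ j, (μ v j ^ 2).re) / (2 * Ideal.absNorm v.asIdeal))
  refine Eq.trans ?_ e2.symm
  unfold Pool.Agent.N666.TB.kK
  rw [dif_pos hpp]
  refine Finset.sum_congr rfl fun v _ => ?_
  rw [Pool.Agent.N430.BP.ri_sq, div_mul_eq_mul_div, ← div_eq_mul_inv, div_div, mul_comm (2 : ℝ)]
  rfl

theorem variance_eq {μ : HeightOneSpectrum (𝓞 K) → Fin n → ℂ} (x : ℕ) :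
    variance μ x = ∑ p ∈ Pool.Agent.N430.BP.OP x, Pool.Agent.N666.TB.vK μ p := by
  unfold variance
  rw [odd_eq]
  refine Finset.sum_congr rfl fun p hp => ?_
  have hpp : p.Prime := (Pool.Agent.N430.BP.mem_OP.1 hp).2.1
  have e2 := finsum_eqv (K := K) ⟨p, hpp⟩ (fun v => (∑ j, (μ v j).re) ^ 2 / Ideal.absNorm v.asIdeal)
  refine Eq.trans e2 ?_
  unfold Pool.Agent.N666.TB.vK
  rw [dif_pos hpp]
  refine Finset.sum_congr rfl fun v _ => ?_
  rw [Pool.Agent.N430.BP.ri_sq, ← div_eq_mul_inv]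
  rfl

/-- over `ℚ` there is one place above `p`, of norm `p` -/
theorem sum_over_Q (p : Nat.Primes) (f : ℕ → ℝ) :
    ∑ v : {v : HeightOneSpectrum (𝓞 ℚ) // below v = p}, f (nm v.1) = f (p : ℕ) := by
  classical
  obtain ⟨v0⟩ := Pool.Agent.N534.AS.exists_above (K := ℚ) p
  have hdeg := Pool.Agent.N534.AS.sum_deg_le (K := ℚ) p
  rw [Module.finrank_self] at hdeg
  have hpos : ∀ v : {v : HeightOneSpectrum (𝓞 ℚ) // below v = p}, 0 < deg v.1 := fun v => (nm_eq v.1).2.1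
  have huniq : ∀ v : {v : HeightOneSpectrum (𝓞 ℚ) // below v = p}, v = v0 := by
    intro v
    by_contra hv
    have h1 : deg v.1 + deg v0.1 ≤ ∑ v : {v : HeightOneSpectrum (𝓞 ℚ) // below v = p}, deg v.1 := by
      have h2 := Finset.sum_pair (f := fun v : {v : HeightOneSpectrum (𝓞 ℚ) // below v = p} => deg v.1) hv
      have h3 : ∑ u ∈ ({v, v0} : Finset {v : HeightOneSpectrum (𝓞 ℚ) // below v = p}), deg u.1 ≤
          ∑ u : {v : HeightOneSpectrum (𝓞 ℚ) // below v = p}, deg u.1 :=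
        Finset.sum_le_sum_of_subset (Finset.subset_univ _)
      omega
    have := hpos v
    have := hpos v0
    omega
  have h0 : deg v0.1 = 1 := by
    have h1 : deg v0.1 ≤ ∑ v : {v : HeightOneSpectrum (𝓞 ℚ) // below v = p}, deg v.1 :=
      Finset.single_le_sum (f := fun v : {v : HeightOneSpectrum (𝓞 ℚ) // below v = p} => deg v.1)
        (fun _ _ => Nat.zero_le _) (Finset.mem_univ v0)
    have := hpos v0
    omega
  have hn : nm v0.1 = (p : ℕ) := by
    have h1 := (nm_eq v0.1).1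
    rw [h0, pow_one, v0.2] at h1
    exact h1
  rw [Fintype.sum_eq_single v0 (fun v hv => absurd (huniq v) hv), hn]

theorem sum_odd_inv : Tendsto (fun x : ℕ => (∑ p ∈ oddPrimes x, (1 : ℝ) / p) / Real.log (Real.log x)) atTop (𝓝 1) := by
  have h1 := Pool.Agent.N666.TB.pc_one
  have h2 : Tendsto (fun x : ℕ => (1 / 2 : ℝ) / Real.log (Real.log x)) atTop (𝓝 0) :=
    tendsto_const_nhds.div_atTop Pool.Agent.N666.TB.loglog_top
  have h3 := h1.sub h2
  rw [sub_zero] at h3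
  refine h3.congr' ?_
  filter_upwards [eventually_ge_atTop 3] with x hx
  rw [← sub_div, odd_eq, Pool.Agent.N430.BP.sum_OP (fun p => (1 : ℝ) / p) hx, Pool.Agent.N666.TB.pr_eq]
  norm_num

theorem dirichlet_case {μ : HeightOneSpectrum (𝓞 ℚ) → Fin 1 → ℂ} (h : ∀ v j, μ v j = 1) :
    Tendsto (fun x : ℕ => center μ x / Real.log (Real.log x)) atTop (𝓝 (1 / 2)) ∧
    Tendsto (fun x : ℕ => variance μ x / Real.log (Real.log x)) atTop (𝓝 1) := by
  have e1 : ∀ x, center μ x = (∑ p ∈ oddPrimes x, (1 : ℝ) / p) / 2 := by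
    intro x
    unfold center
    rw [Finset.sum_div]
    refine Finset.sum_congr rfl fun p hp => ?_
    have hpp : p.Prime := (Finset.mem_filter.1 hp).2.1
    have e2 := finsum_eqv (K := ℚ) ⟨p, hpp⟩ (fun v => (∑ j, (μ v j ^ 2).re) / (2 * Ideal.absNorm v.asIdeal))
    refine Eq.trans e2 ?_
    have e3 := sum_over_Q ⟨p, hpp⟩ (fun q => 1 / (2 * (q : ℝ)))
    refine Eq.trans (Finset.sum_congr rfl fun v _ => ?_) (e3.trans ?_)
    · simp only [h, one_pow, Complex.one_re, Finset.sum_const, Finset.card_univ, Fintype.card_fin, one_smul]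
      rfl
    · show 1 / (2 * (p : ℝ)) = _
      rw [div_div, mul_comm]
  have e4 : ∀ x, variance μ x = ∑ p ∈ oddPrimes x, (1 : ℝ) / p := by
    intro x
    unfold variance
    refine Finset.sum_congr rfl fun p hp => ?_
    have hpp : p.Prime := (Finset.mem_filter.1 hp).2.1
    have e2 := finsum_eqv (K := ℚ) ⟨p, hpp⟩ (fun v => (∑ j, (μ v j).re) ^ 2 / Ideal.absNorm v.asIdeal)
    refine Eq.trans e2 ?_
    have e3 := sum_over_Q ⟨p, hpp⟩ (fun q => 1 / (q : ℝ))
    refine Eq.trans (Finset.sum_congr rfl fun v _ => ?_) e3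
    simp only [h, one_pow, Complex.one_re, Finset.sum_const, Finset.card_univ, Fintype.card_fin, one_smul]
    rfl
  constructor
  · refine (sum_odd_inv.div_const 2).congr fun x => ?_
    rw [e1, div_right_comm]
  · refine sum_odd_inv.congr fun x => ?_
    rw [e4]

end

/-- **Quadratic twists by thin sequences: the central partial Euler products.** -/
theorem result (K : Type) [Field K] [NumberField K] (n : ℕ) (μ : HeightOneSpectrum (𝓞 K) → Fin n → ℂ)
    (hμ : ∀ v j, ‖μ v j‖ ≤ 1) (ι : Type) [Fintype ι] [DecidableEq ι] (ω : Module.Basis ι ℤ (𝓞 K))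
    (P : ι → Finset ℝ) (a : ι → ℝ → ℝ) (c : ι → ℝ) (hP : ∀ i, Admissible (P i) (a i) (c i))
    (hc : Function.Injective c) (T : ℕ → Finset ℕ) (hT : T = integers ∨ T = primes) :
    -- the products are finite and positive
    (∀ p : ℕ, p.Prime → Finite {v : HeightOneSpectrum (𝓞 K) // (p : 𝓞 K) ∈ v.asIdeal}) ∧
    (∀ (D : 𝓞 K) (x : ℕ), 0 < product μ D x) ∧
    -- A. almost all twists, all lengths
    (∀ ε A : ℝ, 0 < ε → 0 < A → ∃ (k : ℕ) (C : ℝ) (N₀ : ℕ), 0 < k ∧ ∀ N : ℕ, N₀ ≤ N → ∀ l : ℝ, 1 ≤ l →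
      ({m : ℕ | m ∈ T N ∧ Exceptional μ (twist ω P a m) ε l k N}.ncard : ℝ) ≤ C * l ^ (-A) * (T N).card) ∧
    (∀ V : ℝ, Tendsto (fun x : ℕ => variance μ x / Real.log (Real.log x)) atTop (𝓝 V) →
    -- B. the normal law
    (0 < V → ∀ x : ℕ → ℕ, Tendsto x atTop atTop → (∀ K : ℕ, ∀ᶠ N : ℕ in atTop, x N ^ K ≤ N) →
      ∀ z : ℝ, Tendsto (fun N => ({m : ℕ | m ∈ T N ∧
        Real.log (product μ (twist ω P a m) (x N)) - center μ (x N) ≤
          z * √(V * Real.log (Real.log (x N)))}.ncard : ℝ) / (T N).card) atTop (𝓝 (normal z))) ∧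
    -- C. several lengths: the characteristic functions of Brownian motion
    (∀ x : ℕ → ℕ, Tendsto x atTop atTop → (∀ K : ℕ, ∀ᶠ N : ℕ in atTop, x N ^ K ≤ N) →
      ∀ (κ : Type) [Fintype κ] (y : κ → ℕ → ℕ) (u : κ → ℝ), (∀ j N, y j N ≤ x N) → (∀ j, Tendsto (y j) atTop atTop) →
      (∀ j, Tendsto (fun N => Real.log (Real.log (y j N)) / Real.log (Real.log (x N))) atTop (𝓝 (u j))) →
      ∀ t : κ → ℝ, Tendsto (fun N => (∑ m ∈ T N, Complex.exp (((∑ j, t j *
        (Real.log (product μ (twist ω P a m) (y j N)) - center μ (y j N))) /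
          √(Real.log (Real.log (x N))) : ℝ) * Complex.I)) / (T N).card) atTop
        (𝓝 (Complex.exp (-((V * (∑ i, ∑ j, t i * t j * min (u i) (u j)) / 2 : ℝ) : ℂ)))))) ∧
    -- D. the quadratic Dirichlet L-functions
    ∀ μ₁ : HeightOneSpectrum (𝓞 ℚ) → Fin 1 → ℂ, (∀ v j, μ₁ v j = 1) →
      Tendsto (fun x : ℕ => center μ₁ x / Real.log (Real.log x)) atTop (𝓝 (1 / 2)) ∧
      Tendsto (fun x : ℕ => variance μ₁ x / Real.log (Real.log x)) atTop (𝓝 1) := by
  classical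
  have hne : Nonempty ι := by
    by_contra hI
    rw [not_nonempty_iff] at hI
    have h1 : (1 : 𝓞 K) = 0 := by
      have := ω.sum_repr (1 : 𝓞 K)
      rw [← this]
      simp
    exact one_ne_zero h1
  -- the sequence
  set w : ℕ → ι → ℤ := Pool.Agent.N666.TM.fl P a with hw
  have hwe : ∀ m, twist ω P a m = Pool.Agent.N666.TB.DD ω (w m) := fun m => rfl
  obtain ⟨κ₀, hκ₀, hS⟩ : ∃ κ₀ : ℝ, 0 < κ₀ ∧ Pool.Agent.N666.TM.WellSeq T w κ₀ := by
    obtain ⟨⟨ρ₁, hρ₁, hS₁⟩, ⟨ρ₂, hρ₂, hS₂⟩⟩ := Pool.Agent.N666.TM.fl_well hP hc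
    rcases hT with rfl | rfl
    · exact ⟨ρ₁, hρ₁, hS₁⟩
    · exact ⟨ρ₂, hρ₂, hS₂⟩
  have hD : ∀ m x, Pool.Agent.N666.TB.DK ω μ x (w m) =
      Real.log (product μ (twist ω P a m) x) - center μ x := fun m x => by
    rw [hwe]
    exact (DK_eq hμ ω (w m) x).2
  obtain ⟨C0, hC0, hnear⟩ := Pool.Agent.N666.TB.DK_near (ω := ω) hμ
  set b0 : ℝ := 8 * n * Module.finrank ℚ K with hb0d
  have hb0 : 0 ≤ b0 := by positivity
  have hper : ∀ p, p.Prime → p ≠ 2 → Pool.Agent.N666.TB.Pd p (Pool.Agent.N666.TB.XK ω μ p) :=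
    fun p hp _ => Pool.Agent.N666.TB.XK_Pd hp
  have hX : ∀ p, p.Prime → p ≠ 2 → ∀ w, |Pool.Agent.N666.TB.XK ω μ p w| ≤
      b0 * Pool.Agent.N430.BP.ri p := fun p hp _ w => Pool.Agent.N666.TB.XK_le hμ hp w
  have hm : ∀ p, p.Prime → p ≠ 2 → Pool.Agent.N666.TB.PM p (Pool.Agent.N666.TB.XK ω μ p) = 0 :=
    fun p hp _ => Pool.Agent.N666.TB.XK_mean hp
  refine ⟨fun p hp => Finite.of_equiv _ (eqv (K := K) ⟨p, hp⟩), fun D x => ?_, ?_, fun V hV0 => ?_,
    fun μ₁ h₁ => dirichlet_case h₁⟩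
  · obtain ⟨e, rfl⟩ := Pool.Agent.N666.TB.DD_surj ω D
    exact (DK_eq hμ ω e x).1
  · intro ε A hε hA
    obtain ⟨B, hB, hsq⟩ := Pool.Agent.N666.TB.sum_sq_ri b0
    obtain ⟨k, C, N₀, hk, hC, H⟩ := Pool.Agent.N666.TB.thin_law hκ₀ hS (Pool.Agent.N666.TB.XK ω μ)
      (fun p => b0 * Pool.Agent.N430.BP.ri p) (fun p => mul_nonneg hb0 (Pool.Agent.N430.BP.ri_nonneg p))
      hper hX hm hB hsq (Pool.Agent.N666.TB.DK ω μ) hC0 (fun x hx w => hnear x (by omega) w) hε hA
    refine ⟨k, C, N₀, hk, fun N hN l hl => ?_⟩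
    have h5 := H k le_rfl N hN l hl
    refine le_trans (le_of_eq ?_) h5
    have e : {m : ℕ | m ∈ T N ∧ Exceptional μ (twist ω P a m) ε l k N} =
        (((T N).filter fun m : ℕ => ∃ x : ℕ, 16 ≤ x ∧ x ^ k ≤ N ∧
        l * Real.log (Real.log x) ^ (1 / 2 : ℝ) * (1 + Real.log (Real.log (Real.log x))) ^ ε <
          |Pool.Agent.N666.TB.DK ω μ x (w m)| : Finset ℕ) : Set ℕ) := by
      ext m
      rw [Finset.mem_coe, Finset.mem_filter, Set.mem_ofPred_eq]
      unfold Exceptional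
      simp only [hD]
    rw [e, Set.ncard_coe_finset]
  · have hV := Pool.Agent.N666.TB.XK_V (ω := ω) hμ (V := V) (by
      refine hV0.congr fun x => ?_
      rw [variance_eq])
    constructor
    · intro hv x hx hxN z
      have h5 := Pool.Agent.N666.TB.dist_thin hκ₀ hS (Pool.Agent.N666.TB.XK ω μ) hb0 hper hX hm hv hV
        (Pool.Agent.N666.TB.DK ω μ) hC0 hnear hx hxN z
      have e0 : Pool.Agent.N666.TB.Phi z = normal z := rfl
      rw [e0] at h5
      refine h5.congr fun N => ?_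
      congr 1
      have e : {m : ℕ | m ∈ T N ∧
          Real.log (product μ (twist ω P a m) (x N)) - center μ (x N) ≤
            z * √(V * Real.log (Real.log (x N)))} =
          (((T N).filter fun m : ℕ => Pool.Agent.N666.TB.DK ω μ (x N) (w m) ≤
            z * √(V * Real.log (Real.log (x N))) : Finset ℕ) : Set ℕ) := by
        ext m
        rw [Finset.mem_coe, Finset.mem_filter, Set.mem_ofPred_eq, hD]
      rw [e, Set.ncard_coe_finset]
    · intro x hx hxN κ _ y u hyx hy hyu t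
      have h5 := Pool.Agent.N666.TB.fdd_thin hκ₀ hS (Pool.Agent.N666.TB.XK ω μ) hb0 hper hX hm hV
        (Pool.Agent.N666.TB.DK ω μ) hC0 hnear hx hxN y hyx hy u hyu t
      refine h5.congr fun N => ?_
      unfold Pool.Agent.N666.TB.SC
      simp only [hD]

end Pool.Agent.Results.MP_ea46f5_nt.ThinTwists
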